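import Mathlib

/-!
# Diagonals of separately absolutely continuous maps into metric spaces

This answers Q1 of MP_680d10_gt in the affirmative: for every metric space `Z`, the diagonal of a
separately absolutely continuous map `[0,1]² → Z` is an absolute Baire-one map.
-/

namespace Pool.Agent.Results.MP_680d10_gt.Diagonal

open Set Filter Topology

universe u

/-- `h : [0,1] → Z` is absolutely continuous. -/
def AbsCont {Z : Type u} [MetricSpace Z] (h : unitInterval → Z) : Prop :=
  ∀ ε > 0, ∃ δ > 0, ∀ (n : ℕ) (a b : ℕ → unitInterval),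
    (∀ k, k < n → a k < b k) → (∀ k, k + 1 < n → b k ≤ a (k + 1)) →
    ∑ k ∈ Finset.range n, ((b k : ℝ) - a k) < δ →
    ∑ k ∈ Finset.range n, dist (h (b k)) (h (a k)) < ε

/-- `f : [0,1]² → Z` is separately absolutely continuous. -/
def SepAbsCont {Z : Type u} [MetricSpace Z] (f : unitInterval → unitInterval → Z) : Prop :=
  (∀ y, AbsCont fun x => f x y) ∧ ∀ x, AbsCont fun y => f x y

/-- `g : [0,1] → Z` is absolute Baire-one. -/
def AbsBaireOne {Z : Type u} [MetricSpace Z] (g : unitInterval → Z) : Prop :=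
  ∃ G : ℕ → unitInterval → Z, (∀ n, Continuous (G n)) ∧
    ∀ x, Tendsto (fun n => G n x) atTop (𝓝 (g x)) ∧
      Summable fun n => dist (G (n + 1) x) (G n x)

variable {Z : Type u} [MetricSpace Z]

theorem AbsCont.continuous {h : unitInterval → Z} (hh : AbsCont h) : Continuous h := by
  rw [Metric.continuous_iff]
  intro x ε hε
  obtain ⟨δ, hδ, H⟩ := hh ε hε
  refine ⟨δ, hδ, fun y hy => ?_⟩
  have hy' : |(y : ℝ) - x| < δ := by rwa [← Real.dist_eq]
  rw [abs_lt] at hy'
  rcases lt_trichotomy x y with hxy | hxy | hxy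
  · have := H 1 (fun _ => x) (fun _ => y) (fun _ _ => hxy) (fun k hk => absurd hk (by omega))
      (by simpa using hy'.2)
    simpa using this
  · rw [hxy, dist_self]
    exact hε
  · have := H 1 (fun _ => y) (fun _ => x) (fun _ _ => hxy) (fun k hk => absurd hk (by omega))
      (by simp only [Finset.sum_const, Finset.card_range, one_smul]; linarith)
    rw [dist_comm]
    simpa using this

/-- The projection of `ℝ` onto `[0,1]`. -/
noncomputable def pr (x : ℝ) : unitInterval := projIcc 0 1 zero_le_one x

theorem continuous_pr : Continuous pr := continuous_projIcc (h := zero_le_one)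

theorem dist_pr (x y : ℝ) : dist (pr x) (pr y) ≤ |x - y| := by
  have := (LipschitzWith.projIcc (zero_le_one (α := ℝ))).dist_le_mul x y
  simpa [Real.dist_eq, pr] using this

theorem pr_coe (x : unitInterval) : pr (x : ℝ) = x := projIcc_val _ x

/-- The extension of `f` to the plane. -/
noncomputable def ext (f : unitInterval → unitInterval → Z) (x y : ℝ) : Z := f (pr x) (pr y)

/-- A dense set of abscissae near which `f` varies little, uniformly in the ordinate. -/
theorem exists_good {f : unitInterval → unitInterval → Z} (h1 : ∀ y, Continuous fun x => f x y)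
    (h2 : ∀ x, Continuous fun y => f x y) {ε : ℝ} (hε : 0 < ε) {c d : ℝ} (hcd : c < d) :
    ∃ t ∈ Ioo c d, ∃ ρ > 0, ∀ x, |x - t| < ρ → ∀ y, dist (ext f x y) (ext f t y) ≤ ε := by
  let E : ℕ → Set ℝ := fun n => {x | ∀ y y' : unitInterval, dist y y' ≤ 1 / ((n : ℝ) + 1) →
    dist (f (pr x) y) (f (pr x) y') ≤ ε / 3}
  have hclosed : ∀ n, IsClosed (E n) := by
    intro n
    simp only [E, ofPred_forall]
    refine isClosed_iInter fun y => isClosed_iInter fun y' => isClosed_iInter fun _ => ?_
    exact isClosed_le (((h1 y).comp continuous_pr).dist ((h1 y').comp continuous_pr))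
      continuous_const
  have hunion : ⋃ n, E n = univ := by
    rw [eq_univ_iff_forall]
    intro x
    have huc : UniformContinuous (f (pr x)) :=
      CompactSpace.uniformContinuous_of_continuous (h2 (pr x))
    rw [Metric.uniformContinuous_iff] at huc
    obtain ⟨δ, hδ, H⟩ := huc (ε / 3) (by positivity)
    obtain ⟨n, hn⟩ := exists_nat_one_div_lt hδ
    exact mem_iUnion.2 ⟨n, fun y y' hyy' => (H (hyy'.trans_lt hn)).le⟩
  have hdense := dense_iUnion_interior_of_closed hclosed hunion
  obtain ⟨t, ht, htcd⟩ := hdense.exists_mem_open isOpen_Ioo (nonempty_Ioo.2 hcd)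
  obtain ⟨n, hn⟩ := mem_iUnion.1 ht
  refine ⟨t, htcd, ?_⟩
  -- a finite net
  obtain ⟨F, hF⟩ : ∃ F : Finset unitInterval, ∀ y : unitInterval, ∃ z ∈ F,
      dist y z < 1 / ((n : ℝ) + 1) := by
    have hcomp : IsCompact (univ : Set unitInterval) := isCompact_univ
    obtain ⟨F, -, hFfin, hFc⟩ := hcomp.finite_cover_balls (e := 1 / ((n : ℝ) + 1)) (by positivity)
    refine ⟨hFfin.toFinset, fun y => ?_⟩
    obtain ⟨z, hz, hyz⟩ := mem_iUnion₂.1 (hFc (mem_univ y))
    exact ⟨z, hFfin.mem_toFinset.2 hz, hyz⟩
  have hev : ∀ᶠ x in 𝓝 t, x ∈ E n ∧ ∀ z ∈ F, dist (f (pr x) z) (f (pr t) z) < ε / 3 := by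
    have hE : ∀ᶠ x in 𝓝 t, x ∈ E n := mem_interior_iff_mem_nhds.1 hn
    refine hE.and ?_
    rw [Filter.eventually_all_finset]
    intro z _
    exact Metric.tendsto_nhds.1 (((h1 z).comp continuous_pr).tendsto t) _ (by positivity)
  obtain ⟨ρ, hρ, H⟩ := Metric.eventually_nhds_iff.1 hev
  refine ⟨ρ, hρ, fun x hx y => ?_⟩
  obtain ⟨hxE, hxF⟩ := H (y := x) (by rwa [Real.dist_eq])
  have htE : t ∈ E n := interior_subset hn
  obtain ⟨z, hz, hyz⟩ := hF (pr y)
  have e1 := hxE (pr y) z hyz.le
  have e2 := (hxF z hz).le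
  have e3 := htE (pr y) z hyz.le
  rw [dist_comm] at e3
  calc dist (ext f x y) (ext f t y)
      ≤ dist (f (pr x) (pr y)) (f (pr x) z) + dist (f (pr x) z) (f (pr t) z)
        + dist (f (pr t) z) (f (pr t) (pr y)) := dist_triangle4 _ _ _ _
    _ ≤ ε / 3 + ε / 3 + ε / 3 := add_le_add (add_le_add e1 e2) e3
    _ = ε := by ring

/-- One step of the staircase. -/
theorem one_step {F : ℝ → ℝ → Z} (h1 : ∀ y, Continuous fun x => F x y)
    (h2 : ∀ x, Continuous fun y => F x y) {ε c c' y y' ρ : ℝ} (hε : 0 ≤ ε) (hy : y ≤ y')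
    (hρ : 0 < ρ) (hρc : ρ < c' - c)
    (H : ∀ x, |x - c'| ≤ ρ → ∀ z, dist (F x z) (F c' z) ≤ ε) :
    ∃ h : ℝ → Z, Continuous h ∧ h c = F c y ∧ h c' = F c' y' ∧
      ∀ x ∈ Icc c c', ∃ b ∈ Icc y y', dist (h x) (F x b) ≤ 2 * ε := by
  set m := c' - ρ with hm
  set mid := c' - ρ / 2 with hmid
  let a : ℝ → ℝ := fun x => min c' (max x (2 * x - m))
  let b : ℝ → ℝ := fun x => y + ((2 * x - m - c') / ρ) * (y' - y)
  have ha : Continuous a :=
    continuous_const.min (continuous_id.max ((continuous_const.mul continuous_id).sub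
      continuous_const))
  have hb : Continuous b := by
    fun_prop
  refine ⟨fun x => if x ≤ mid then F (a x) y else F c' (b x), ?_, ?_, ?_, ?_⟩
  · refine Continuous.if_le ((h1 y).comp ha) ((h2 c').comp hb) continuous_id continuous_const ?_
    intro x hx
    have hx' : x = mid := hx
    have e1 : a x = c' := by
      simp only [a]
      rw [min_eq_left]
      apply le_max_of_le_right
      rw [hx', hmid, hm]
      linarith
    have e2 : b x = y := by
      simp only [b]
      rw [hx', hmid, hm]
      have : 2 * (c' - ρ / 2) - (c' - ρ) - c' = 0 := by ring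
      rw [this]
      ring
    rw [e1, e2]
  · have hc : c ≤ mid := by rw [hmid]; linarith
    simp only [if_pos hc]
    have : a c = c := by
      simp only [a]
      rw [max_eq_left (by rw [hm]; linarith), min_eq_right (by linarith)]
    rw [this]
  · have hc : ¬ c' ≤ mid := by rw [hmid]; linarith
    simp only [if_neg hc]
    have : b c' = y' := by
      simp only [b]
      have : (2 * c' - m - c') / ρ = 1 := by
        rw [hm]
        field_simp
        ring
      rw [this]
      ring
    rw [this]
  · rintro x ⟨hcx, hxc⟩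
    by_cases hx : x ≤ mid
    · refine ⟨y, ⟨le_rfl, hy⟩, ?_⟩
      simp only [if_pos hx]
      by_cases hxm : x ≤ m
      · have : a x = x := by
          simp only [a]
          rw [max_eq_left (by linarith), min_eq_right (by linarith)]
        rw [this, dist_self]
        positivity
      · push Not at hxm
        have e1 : a x = 2 * x - m := by
          simp only [a]
          rw [max_eq_right (by linarith), min_eq_right (by rw [hm]; linarith)]
        have e2 : |a x - c'| ≤ ρ := by
          rw [e1, abs_le]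
          constructor <;> linarith
        have e3 : |x - c'| ≤ ρ := by
          rw [abs_le]
          constructor <;> linarith
        have e4 := H _ e2 y
        have e5 := H _ e3 y
        rw [dist_comm] at e5
        calc dist (F (a x) y) (F x y) ≤ dist (F (a x) y) (F c' y) + dist (F c' y) (F x y) :=
              dist_triangle _ _ _
          _ ≤ ε + ε := add_le_add e4 e5
          _ = 2 * ε := by ring
    · simp only [if_neg hx]
      push Not at hx
      have e0 : 0 ≤ (2 * x - m - c') / ρ := by
        apply div_nonneg _ hρ.le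
        linarith
      have e1 : (2 * x - m - c') / ρ ≤ 1 := by
        rw [div_le_one hρ]
        linarith
      refine ⟨b x, ⟨?_, ?_⟩, ?_⟩
      · simp only [b]
        nlinarith [mul_nonneg e0 (sub_nonneg.2 hy)]
      · simp only [b]
        nlinarith [mul_le_mul_of_nonneg_right e1 (sub_nonneg.2 hy)]
      · have e3 : |x - c'| ≤ ρ := by
          rw [abs_le]
          constructor <;> linarith
        have e4 := H _ e3 (b x)
        rw [dist_comm] at e4
        linarith

/-- The staircase up to `c`. -/
theorem staircase {f : unitInterval → unitInterval → Z} (h1 : ∀ y, Continuous fun x => f x y)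
    (h2 : ∀ x, Continuous fun y => f x y) {ε η η' : ℝ} (hε : 0 < ε) (hη : η' < η) (k : ℕ) :
    ∃ c ≥ (k : ℝ) * ((η - η') / 4), ∃ h : ℝ → Z, Continuous h ∧
      h c = ext f c (c - (η + η') / 2) ∧
      ∀ x ∈ Icc 0 c, ∃ b ∈ Ioo (x - η) (x - η'), dist (h x) (ext f x b) ≤ 2 * ε := by
  have g1 : ∀ y, Continuous fun x => ext f x y := fun y => (h1 (pr y)).comp continuous_pr
  have g2 : ∀ x, Continuous fun y => ext f x y := fun x => (h2 (pr x)).comp continuous_pr
  induction k with
  | zero =>
    refine ⟨0, by simp, fun _ => ext f 0 (0 - (η + η') / 2), continuous_const, rfl, ?_⟩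
    rintro x ⟨hx0, hx0'⟩
    have hx : x = 0 := le_antisymm hx0' hx0
    subst hx
    refine ⟨0 - (η + η') / 2, ⟨by linarith, by linarith⟩, ?_⟩
    rw [dist_self]
    positivity
  | succ k ih =>
    obtain ⟨c, hc, h, hcont, hhc, hest⟩ := ih
    have hγ : 0 < η - η' := by linarith
    obtain ⟨c', ⟨hc1, hc2⟩, ρ₀, hρ₀, H⟩ := exists_good h1 h2 hε
      (c := c + (η - η') / 4) (d := c + (η - η') / 2) (by linarith)
    obtain ⟨ρ, hρ, hρ1, hρ2⟩ : ∃ ρ, 0 < ρ ∧ ρ < ρ₀ ∧ ρ < c' - c := by
      refine ⟨min (ρ₀ / 2) ((c' - c) / 2), ?_, ?_, ?_⟩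
      · apply lt_min <;> linarith
      · exact (min_le_left _ _).trans_lt (by linarith)
      · exact (min_le_right _ _).trans_lt (by linarith)
    obtain ⟨h', hcont', hh'c, hh'c', hest'⟩ := one_step g1 g2
      (y := c - (η + η') / 2) (y' := c' - (η + η') / 2) hε.le (by linarith) hρ hρ2
      (fun x hx z => H x (hx.trans_lt hρ1) z)
    refine ⟨c', ?_, fun x => if x ≤ c then h x else h' x, ?_, ?_, ?_⟩
    · push_cast
      linarith
    · refine Continuous.if_le hcont hcont' continuous_id continuous_const ?_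
      intro x hx
      have hx' : x = c := hx
      rw [hx', hhc, hh'c]
    · have : ¬ c' ≤ c := by linarith
      simp only [if_neg this]
      exact hh'c'
    · rintro x ⟨hx0, hxc'⟩
      by_cases hx : x ≤ c
      · simp only [if_pos hx]
        exact hest x ⟨hx0, hx⟩
      · simp only [if_neg hx]
        push Not at hx
        obtain ⟨b, ⟨hb1, hb2⟩, hb3⟩ := hest' x ⟨hx.le, hxc'⟩
        exact ⟨b, ⟨by linarith, by linarith⟩, hb3⟩

/-- An approximating continuous map. -/
theorem exists_approx {f : unitInterval → unitInterval → Z}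
    (h1 : ∀ y, Continuous fun x => f x y) (h2 : ∀ x, Continuous fun y => f x y) {ε η η' : ℝ}
    (hε : 0 < ε) (hη : η' < η) :
    ∃ (G : unitInterval → Z) (b : unitInterval → ℝ), Continuous G ∧
      ∀ x : unitInterval, b x ∈ Ioo ((x : ℝ) - η) ((x : ℝ) - η') ∧
        dist (G x) (f x (pr (b x))) ≤ 2 * ε := by
  have hγ : 0 < (η - η') / 4 := by linarith
  obtain ⟨k, hk⟩ := exists_nat_ge (1 / ((η - η') / 4))
  obtain ⟨c, hc, h, hcont, -, hest⟩ := staircase h1 h2 hε hη k
  have hc1 : 1 ≤ c := by
    rw [div_le_iff₀ hγ] at hk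
    linarith
  have key : ∀ x : unitInterval, ∃ b ∈ Ioo ((x : ℝ) - η) ((x : ℝ) - η'),
      dist (h x) (f x (pr b)) ≤ 2 * ε := by
    intro x
    obtain ⟨b, hb, hd⟩ := hest x ⟨x.2.1, x.2.2.trans hc1⟩
    refine ⟨b, hb, ?_⟩
    rw [ext, pr_coe] at hd
    exact hd
  choose b hb hd using key
  exact ⟨fun x => h x, b, hcont.comp continuous_subtype_val, fun x => ⟨hb x, hd x⟩⟩

/-- Summability along strictly increasing sequences. -/
theorem AbsCont.summable {h : unitInterval → Z} (hh : AbsCont h) (x : unitInterval) (b : ℕ → ℝ)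
    (hb : ∀ n : ℕ, b n ∈ Ioo ((x : ℝ) - 1 / ((n : ℝ) + 1)) ((x : ℝ) - 1 / ((n : ℝ) + 2))) :
    Summable fun n => dist (h (pr (b (n + 1)))) (h (pr (b n))) := by
  have hlt : ∀ n, b n < x := fun n => (hb n).2.trans_le (by
    have : (0 : ℝ) ≤ 1 / ((n : ℝ) + 2) := by positivity
    linarith)
  rcases eq_or_lt_of_le x.2.1 with hx0 | hx0
  · -- `x = 0`
    have h0 : ∀ n, pr (b n) = 0 := by
      intro n
      have hb0 : b n ≤ 0 := by
        have := hlt n
        rw [← hx0] at this
        exact this.le
      exact projIcc_of_le_left _ hb0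
    simp only [h0, dist_self]
    exact summable_zero
  · obtain ⟨δ, hδ, H⟩ := hh 1 one_pos
    obtain ⟨N, hN⟩ := exists_nat_one_div_lt (lt_min hx0 hδ)
    have hN1 : 1 / ((N : ℝ) + 1) < x := hN.trans_le (min_le_left _ _)
    have hN2 : 1 / ((N : ℝ) + 1) < δ := hN.trans_le (min_le_right _ _)
    rw [← summable_nat_add_iff N]
    have hmono : ∀ n : ℕ, b n < b (n + 1) := by
      intro n
      have e1 := (hb n).2
      have e2 := (hb (n + 1)).1
      push_cast at e2
      have : (n : ℝ) + 1 + 1 = n + 2 := by ring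
      rw [this] at e2
      exact e1.trans e2
    have hge : ∀ n, 0 ≤ b (n + N) := by
      intro n
      have e1 := (hb (n + N)).1
      have e2 : 1 / (((n + N : ℕ) : ℝ) + 1) ≤ 1 / ((N : ℝ) + 1) := by
        apply one_div_le_one_div_of_le (by positivity)
        push_cast
        have : (0 : ℝ) ≤ n := by positivity
        linarith
      linarith
    have hcoe : ∀ n, ((pr (b (n + N)) : unitInterval) : ℝ) = b (n + N) := by
      intro n
      have hmem : b (n + N) ∈ Icc (0 : ℝ) 1 := ⟨hge n, ((hlt _).trans_le x.2.2).le⟩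
      have := projIcc_of_mem (zero_le_one (α := ℝ)) hmem
      rw [pr, this]
    apply summable_of_sum_range_le (c := 1) (fun _ => dist_nonneg)
    intro m
    have key := H m (fun k => pr (b (k + N))) (fun k => pr (b (k + 1 + N))) ?_ ?_ ?_
    · have e : ∀ k, k + N + 1 = k + 1 + N := fun k => by ring
      simp only [e]
      exact key.le
    · intro k _
      rw [← Subtype.coe_lt_coe, hcoe, hcoe]
      have e : k + 1 + N = k + N + 1 := by ring
      rw [e]
      exact hmono _
    · intro k _
      exact le_rfl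
    · have e : ∑ k ∈ Finset.range m, (((pr (b (k + 1 + N)) : unitInterval) : ℝ) -
          ((pr (b (k + N)) : unitInterval) : ℝ)) = b (m + N) - b (0 + N) := by
        rw [← Finset.sum_range_sub (fun k => b (k + N))]
        apply Finset.sum_congr rfl
        intro k _
        rw [hcoe, hcoe]
      rw [e, zero_add]
      have e1 := hlt (m + N)
      have e2 := (hb N).1
      linarith

/-- For every metric space `Z` and every separately absolutely continuous map
`f : [0,1]² → Z`, the diagonal `x ↦ f (x, x)` is an absolute Baire-one map. -/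
theorem result : ∀ (Z : Type u) [MetricSpace Z] (f : unitInterval → unitInterval → Z),
    SepAbsCont f → AbsBaireOne fun x => f x x := by
  intro Z _ f hf
  have h1 : ∀ y, Continuous fun x => f x y := fun y => (hf.1 y).continuous
  have h2 : ∀ x, Continuous fun y => f x y := fun x => (hf.2 x).continuous
  have key : ∀ n : ℕ, ∃ (G : unitInterval → Z) (b : unitInterval → ℝ), Continuous G ∧
      ∀ x : unitInterval,
        b x ∈ Ioo ((x : ℝ) - 1 / ((n : ℝ) + 1)) ((x : ℝ) - 1 / ((n : ℝ) + 2)) ∧
        dist (G x) (f x (pr (b x))) ≤ 2 * (1 / 2) ^ n := by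
    intro n
    apply exists_approx h1 h2 (by positivity)
    apply one_div_lt_one_div_of_lt (by positivity)
    linarith
  choose G b hG hb using key
  refine ⟨G, hG, fun x => ⟨?_, ?_⟩⟩
  · have hbx : Tendsto (fun n => b n x) atTop (𝓝 (x : ℝ)) := by
      have e1 : Tendsto (fun n : ℕ => (x : ℝ) - 1 / ((n : ℝ) + 1)) atTop (𝓝 ((x : ℝ) - 0)) :=
        tendsto_const_nhds.sub tendsto_one_div_add_atTop_nhds_zero_nat
      rw [sub_zero] at e1
      refine tendsto_of_tendsto_of_tendsto_of_le_of_le e1 tendsto_const_nhds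
        (fun n => (hb n x).1.1.le) fun n => ?_
      have := (hb n x).1.2.le
      have h0 : (0 : ℝ) ≤ 1 / ((n : ℝ) + 2) := by positivity
      simp only
      linarith
    have hfx : Tendsto (fun n => f x (pr (b n x))) atTop (𝓝 (f x x)) := by
      have := ((h2 x).comp continuous_pr).tendsto (x : ℝ)
      simp only [Function.comp, pr_coe] at this
      exact this.comp hbx
    have hz : Tendsto (fun n => dist (G n x) (f x (pr (b n x)))) atTop (𝓝 0) := by
      have e1 : Tendsto (fun n : ℕ => 2 * ((1 : ℝ) / 2) ^ n) atTop (𝓝 (2 * 0)) :=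
        (tendsto_pow_atTop_nhds_zero_of_lt_one (by norm_num) (by norm_num)).const_mul 2
      rw [mul_zero] at e1
      exact squeeze_zero (fun _ => dist_nonneg) (fun n => (hb n x).2) e1
    exact (tendsto_iff_of_dist hz).2 hfx
  · have hs1 : Summable fun n => dist (f x (pr (b (n + 1) x))) (f x (pr (b n x))) :=
      (hf.2 x).summable x (fun n => b n x) fun n => (hb n x).1
    have hgeo : Summable fun n : ℕ => 2 * ((1 : ℝ) / 2) ^ n :=
      (summable_geometric_of_lt_one (by norm_num) (by norm_num)).mul_left 2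
    have hgeo' : Summable fun n : ℕ => 2 * ((1 : ℝ) / 2) ^ (n + 1) :=
      (summable_nat_add_iff 1).2 hgeo
    refine Summable.of_nonneg_of_le (fun _ => dist_nonneg) (fun n => ?_)
      ((hgeo'.add hs1).add hgeo)
    have e1 := (hb (n + 1) x).2
    have e2 := (hb n x).2
    rw [dist_comm] at e2
    exact (dist_triangle4 _ (f x (pr (b (n + 1) x))) (f x (pr (b n x))) _).trans
      (add_le_add (add_le_add e1 le_rfl) e2)

end Pool.Agent.Results.MP_680d10_gt.Diagonal
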